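import Mathlib

set_option autoImplicit false

open Set Filter Topology

namespace Pool.Agent.H256.CF

/-- the subsum with index set `A` -/
noncomputable def sg (y : ℕ → ℝ) (A : Set ℕ) : ℝ := ∑' n, A.indicator y n

section
variable {y : ℕ → ℝ} (hy : ∀ n, 0 < y n) (hs : Summable y)
include hs

lemma sgs (A : Set ℕ) : Summable (A.indicator y) := hs.indicator A

lemma sg_union {A B : Set ℕ} (h : Disjoint A B) : sg y (A ∪ B) = sg y A + sg y B := by
  unfold sg
  rw [← (sgs hs A).tsum_add (sgs hs B)]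
  apply tsum_congr
  intro n
  rw [Set.indicator_union_of_disjoint h]

include hy

lemma sg_mono {A B : Set ℕ} (h : A ⊆ B) : sg y A ≤ sg y B :=
  (sgs hs A).tsum_le_tsum (fun n => Set.indicator_le_indicator_of_subset h (fun n => (hy n).le) n)
    (sgs hs B)

lemma le_sg {A : Set ℕ} {n : ℕ} (h : n ∈ A) : y n ≤ sg y A := by
  have h1 := (sgs hs A).le_tsum n (fun j _ => Set.indicator_nonneg (fun n _ => (hy n).le) j)
  rwa [Set.indicator_of_mem h] at h1

lemma sg_nonneg (A : Set ℕ) : 0 ≤ sg y A :=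
  tsum_nonneg (fun j => Set.indicator_nonneg (fun n _ => (hy n).le) j)

lemma sg_pos {A : Set ℕ} (h : A.Nonempty) : 0 < sg y A := by
  obtain ⟨n, hn⟩ := h
  exact lt_of_lt_of_le (hy n) (le_sg hy hs hn)

omit hy in
lemma sg_diff {A B : Set ℕ} (h : B ⊆ A) : sg y (A \ B) = sg y A - sg y B := by
  have h1 := sg_union hs (A := A \ B) (B := B) disjoint_sdiff_left
  rw [Set.diff_union_of_subset h] at h1
  linarith

lemma eq_of_subset {A B : Set ℕ} (h : A ⊆ B) (he : sg y A = sg y B) : A = B := by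
  by_contra hne
  have h1 : (B \ A).Nonempty := by
    rw [Set.diff_nonempty]
    intro h2
    exact hne (h.antisymm h2)
  have h2 := sg_pos hy hs h1
  rw [sg_diff hs h] at h2
  linarith

end

lemma sg_empty (y : ℕ → ℝ) : sg y ∅ = 0 := by simp [sg]

lemma sg_singleton (y : ℕ → ℝ) (n : ℕ) : sg y {n} = y n := by
  unfold sg
  rw [tsum_eq_single n]
  · simp
  · intro b hb
    simp [hb]

/-- the representations of `t` -/
def R (y : ℕ → ℝ) (t : ℝ) : Set (Set ℕ) := {A | sg y A = t}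

/-- every number with two representations has exactly `m` of them -/
def Two (y : ℕ → ℝ) (m : ℕ) : Prop :=
  ∀ A B : Set ℕ, A ≠ B → sg y A = sg y B → (R y (sg y A)).Finite ∧ (R y (sg y A)).ncard = m

/-- the least number with two representations that differ on `G` -/
lemma exists_min {y : ℕ → ℝ} (hy : ∀ n, 0 < y n) (hs : Summable y) (G : Finset ℕ)
    (h : ∃ A B : Set ℕ, sg y A = sg y B ∧ A ∩ G ≠ B ∩ G) :
    ∃ A B : Set ℕ, sg y A = sg y B ∧ A ∩ G ≠ B ∩ G ∧
      ∀ A' B' : Set ℕ, sg y A' = sg y B' → A' ∩ G ≠ B' ∩ G → sg y A ≤ sg y A' := by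
  classical
  let f : (ℕ → Bool) → ℝ := fun e => ∑' n, (if e n = true then y n else 0)
  have hfc : Continuous f := by
    apply continuous_tsum (u := y)
    · intro n
      have h1 : Continuous (fun b : Bool => if b = true then y n else 0) := continuous_of_discreteTopology
      exact h1.comp (continuous_apply n)
    · exact hs
    · intro n e
      split_ifs
      · rw [Real.norm_eq_abs, abs_of_pos (hy n)]
      · simpa using (hy n).le
  have hsf : ∀ A : Set ℕ, f (fun n => decide (n ∈ A)) = sg y A := by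
    intro A
    apply tsum_congr
    intro n
    by_cases hn : n ∈ A <;> simp [hn]
  have hfs : ∀ e : ℕ → Bool, sg y {n | e n = true} = f e := by
    intro e
    apply tsum_congr
    intro n
    by_cases hn : e n = true <;> simp [hn]
  let K : Set ((ℕ → Bool) × (ℕ → Bool)) := {p | f p.1 = f p.2 ∧ ∃ g ∈ G, p.1 g ≠ p.2 g}
  have hK2 : IsClosed {p : (ℕ → Bool) × (ℕ → Bool) | ∃ g ∈ G, p.1 g ≠ p.2 g} := by
    have : {p : (ℕ → Bool) × (ℕ → Bool) | ∃ g ∈ G, p.1 g ≠ p.2 g} =
        ⋃ g ∈ (G : Set ℕ), {p : (ℕ → Bool) × (ℕ → Bool) | p.1 g ≠ p.2 g} := by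
      ext p; simp
    rw [this]
    apply Set.Finite.isClosed_biUnion G.finite_toSet
    intro g _
    have h1 : Continuous (fun p : (ℕ → Bool) × (ℕ → Bool) => (p.1 g, p.2 g)) := by fun_prop
    exact (isClosed_discrete {q : Bool × Bool | q.1 ≠ q.2}).preimage h1
  have hK1 : IsClosed {p : (ℕ → Bool) × (ℕ → Bool) | f p.1 = f p.2} :=
    isClosed_eq (hfc.comp continuous_fst) (hfc.comp continuous_snd)
  have hK : IsCompact K := (hK1.inter hK2).isCompact
  have key : ∀ A B : Set ℕ, A ∩ G ≠ B ∩ G ↔ ∃ g ∈ G, ¬ (g ∈ A ↔ g ∈ B) := by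
    intro A B
    rw [Ne, Set.ext_iff, not_forall]
    constructor
    · rintro ⟨g, hg⟩
      by_cases hgG : g ∈ G
      · exact ⟨g, hgG, by simpa [hgG] using hg⟩
      · simp [hgG] at hg
    · rintro ⟨g, hgG, hg⟩
      exact ⟨g, by simpa [hgG] using hg⟩
  have hne : K.Nonempty := by
    obtain ⟨A, B, h1, h2⟩ := h
    refine ⟨(fun n => decide (n ∈ A), fun n => decide (n ∈ B)), ?_, ?_⟩
    · show f _ = f _
      rw [hsf, hsf, h1]
    · obtain ⟨g, hg, hg2⟩ := (key A B).1 h2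
      exact ⟨g, hg, by simpa using hg2⟩
  obtain ⟨p, hp, hmin⟩ := hK.exists_isMinOn hne (hfc.comp continuous_fst).continuousOn
  refine ⟨{n | p.1 n = true}, {n | p.2 n = true}, ?_, ?_, ?_⟩
  · rw [hfs, hfs]; exact hp.1
  · rw [key]
    obtain ⟨g, hg, hg2⟩ := hp.2
    refine ⟨g, hg, ?_⟩
    simp only [Set.mem_setOf_eq]
    intro h3
    exact hg2 (Bool.eq_iff_iff.2 h3)
  · intro A' B' h1 h2
    rw [hfs, ← hsf A']
    have hm : ((fun n => decide (n ∈ A'), fun n => decide (n ∈ B')) : (ℕ → Bool) × (ℕ → Bool)) ∈ K := by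
      refine ⟨?_, ?_⟩
      · show f _ = f _
        rw [hsf, hsf, h1]
      · obtain ⟨g, hg, hg2⟩ := (key A' B').1 h2
        exact ⟨g, hg, by simpa using hg2⟩
    exact hmin hm

section
variable {y : ℕ → ℝ} (hy : ∀ n, 0 < y n) (hs : Summable y)
include hy hs

/-- representations of the least number that differ on `G` are disjoint -/
lemma disj_of_min {G : Finset ℕ} {u : ℝ}
    (hmin : ∀ A' B' : Set ℕ, sg y A' = sg y B' → A' ∩ G ≠ B' ∩ G → u ≤ sg y A')
    {A B : Set ℕ} (hA : sg y A = u) (hB : sg y B = u) (hne : A ∩ G ≠ B ∩ G) : Disjoint A B := by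
  rw [Set.disjoint_left]
  intro i hiA hiB
  have h1 : sg y (A \ {i}) = u - y i := by
    rw [sg_diff hs (Set.singleton_subset_iff.2 hiA), sg_singleton, hA]
  have h2 : sg y (B \ {i}) = u - y i := by
    rw [sg_diff hs (Set.singleton_subset_iff.2 hiB), sg_singleton, hB]
  have h3 := hmin (A \ {i}) (B \ {i}) (h1.trans h2.symm) (by
    intro h4
    apply hne
    ext n
    have h5 := Set.ext_iff.1 h4 n
    by_cases hn : n = i
    · subst hn; simp [hiA, hiB]
    · simpa [hn] using h5)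
  rw [h1] at h3
  linarith [hy i]

/-- pairwise disjoint representations: at most three -/
lemma alpha {m : ℕ} (hm : 4 ≤ m) (hT : Two y m) {u : ℝ}
    (hfin : (R y u).Finite) (hc : (R y u).ncard = m)
    (hd : ∀ A ∈ R y u, ∀ B ∈ R y u, A ≠ B → Disjoint A B) : False := by
  classical
  have h4 : 3 < (R y u).ncard := by omega
  obtain ⟨S, hS, hS4⟩ := Set.exists_subset_card_eq (s := R y u) (n := 4) (by omega)
  obtain ⟨A0, A1, A2, A3, h01, h02, h03, h12, h13, h23, hSe⟩ := Set.ncard_eq_four.1 hS4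
  have m0 : A0 ∈ R y u := hS (by rw [hSe]; simp)
  have m1 : A1 ∈ R y u := hS (by rw [hSe]; simp)
  have m2 : A2 ∈ R y u := hS (by rw [hSe]; simp)
  have m3 : A3 ∈ R y u := hS (by rw [hSe]; simp)
  have hu : 0 < u := by
    have h5 : A0.Nonempty ∨ A1.Nonempty := by
      by_contra h6
      push Not at h6
      exact h01 (h6.1.trans h6.2.symm)
    rcases h5 with h5 | h5
    · have := sg_pos hy hs h5; rwa [show sg y A0 = u from m0] at this
    · have := sg_pos hy hs h5; rwa [show sg y A1 = u from m1] at this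
  have hne : ∀ A ∈ R y u, A.Nonempty := by
    intro A hA
    rw [Set.nonempty_iff_ne_empty]
    rintro rfl
    have : sg y ∅ = u := hA
    rw [sg_empty] at this
    linarith
  have hun : ∀ A ∈ R y u, ∀ B ∈ R y u, A ≠ B → sg y (A ∪ B) = 2 * u := by
    intro A hA B hB hAB
    rw [sg_union hs (hd A hA B hB hAB), show sg y A = u from hA, show sg y B = u from hB]; ring
  have hU12 := hun A1 m1 A2 m2 h12
  have hU13 := hun A1 m1 A3 m3 h13
  have hsep : ∀ A ∈ R y u, ∀ B ∈ R y u, ∀ C ∈ R y u, A ≠ C → B ≠ C → ¬ C ⊆ A ∪ B := by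
    intro A hA B hB C hC h1 h2 h3
    obtain ⟨n, hn⟩ := hne C hC
    rcases h3 hn with h4 | h4
    · exact Set.disjoint_left.1 (hd A hA C hC h1) h4 hn
    · exact Set.disjoint_left.1 (hd B hB C hC h2) h4 hn
  have hne2 : A1 ∪ A2 ≠ A1 ∪ A3 := by
    intro h5
    exact hsep A1 m1 A2 m2 A3 m3 h13 h23 (h5 ▸ Set.subset_union_right)
  obtain ⟨hf2, hc2⟩ := hT _ _ hne2 (hU12.trans hU13.symm)
  rw [hU12] at hf2 hc2
  let P : Set (Set ℕ) := (fun X => A0 ∪ X) '' (R y u \ {A0})
  have hPinj : Set.InjOn (fun X => A0 ∪ X) (R y u \ {A0}) := by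
    rintro X ⟨hX, hX0⟩ Y ⟨hY, hY0⟩ hXY
    by_contra hne3
    have hX0' : X ≠ A0 := by simpa using hX0
    have hY0' : Y ≠ A0 := by simpa using hY0
    have hXY' : A0 ∪ X = A0 ∪ Y := hXY
    exact hsep A0 m0 X hX Y hY (Ne.symm hY0') hne3 (hXY' ▸ Set.subset_union_right)
  have hPc : P.ncard = m - 1 := by
    rw [Set.ncard_image_of_injOn hPinj, Set.ncard_diff_singleton_of_mem m0, hc]
  have hPf : P.Finite := (hfin.subset Set.diff_subset).image _
  have hQf : ({A1 ∪ A2, A1 ∪ A3} : Set (Set ℕ)).Finite := Set.toFinite _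
  have hdis : Disjoint P ({A1 ∪ A2, A1 ∪ A3} : Set (Set ℕ)) := by
    rw [Set.disjoint_left]
    rintro Z ⟨X, _, rfl⟩ hZ
    have hA0 : A0 ⊆ A0 ∪ X := Set.subset_union_left
    rcases hZ with hZ | hZ
    · have hZ' : A0 ∪ X = A1 ∪ A2 := hZ
      exact hsep A1 m1 A2 m2 A0 m0 (Ne.symm h01) (Ne.symm h02) (hZ' ▸ hA0)
    · have hZ' : A0 ∪ X = A1 ∪ A3 := hZ
      exact hsep A1 m1 A3 m3 A0 m0 (Ne.symm h01) (Ne.symm h03) (hZ' ▸ hA0)
  have hsub : P ∪ {A1 ∪ A2, A1 ∪ A3} ⊆ R y (2 * u) := by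
    rintro Z (⟨X, ⟨hX, hX0⟩, rfl⟩ | hZ | hZ)
    · exact hun A0 m0 X hX (Ne.symm (by simpa using hX0))
    · rw [hZ]; exact hU12
    · rw [show Z = A1 ∪ A3 from hZ]; exact hU13
  have hle := Set.ncard_le_ncard hsub hf2
  rw [Set.ncard_union_eq hdis hPf hQf, hPc, hc2, Set.ncard_pair hne2] at hle
  omega

/-- the least number that has two representations differing on `G`: one representation avoids `G`
and another one does not -/
lemma beta {m : ℕ} (hm : 4 ≤ m) (hT : Two y m) (G : Finset ℕ)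
    (h : ∃ A B : Set ℕ, sg y A = sg y B ∧ A ∩ G ≠ B ∩ G) :
    ∃ A B : Set ℕ, sg y A = sg y B ∧ (A ∩ G).Nonempty ∧ B ∩ G = ∅ := by
  classical
  obtain ⟨A0, B0, h1, h2, hmin⟩ := exists_min hy hs G h
  set u := sg y A0 with hu
  have hAB0 : A0 ≠ B0 := fun h3 => h2 (by rw [h3])
  obtain ⟨hfin, hc⟩ := hT A0 B0 hAB0 h1
  rw [← hu] at hfin hc
  by_cases hall : ∀ A ∈ R y u, ∀ B ∈ R y u, A ≠ B → Disjoint A B
  · exact (alpha hy hs hm hT hfin hc hall).elim
  push Not at hall
  obtain ⟨B, hB, B', hB', hBB, hnd⟩ := hall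
  have hbb : B ∩ G = B' ∩ G := by
    by_contra h3
    exact hnd (disj_of_min hy hs hmin hB hB' h3)
  obtain ⟨A, hA, hAG⟩ : ∃ A ∈ R y u, A ∩ G ≠ B ∩ G := by
    by_cases h3 : A0 ∩ G = B ∩ G
    · exact ⟨B0, h1.symm, fun h4 => h2 (h3.trans h4.symm)⟩
    · exact ⟨A0, rfl, h3⟩
  by_cases hb : B ∩ G = ∅
  · refine ⟨A, B, hA.trans hB.symm, ?_, hb⟩
    rw [Set.nonempty_iff_ne_empty]
    rwa [hb] at hAG
  exfalso
  have hbne : (B ∩ G).Nonempty := Set.nonempty_iff_ne_empty.2 hb
  have hpos := sg_pos hy hs hbne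
  set b : Set ℕ := B ∩ G with hbdef
  have e1 : sg y (B \ b) = u - sg y b := by
    rw [sg_diff hs Set.inter_subset_left, show sg y B = u from hB]
  have e2 : sg y (B' \ b) = u - sg y b := by
    rw [sg_diff hs (hbb ▸ Set.inter_subset_left), show sg y B' = u from hB']
  have hne : B \ b ≠ B' \ b := by
    intro h3
    apply hBB
    have h4 : b ⊆ B := Set.inter_subset_left
    have h5 : b ⊆ B' := hbb ▸ Set.inter_subset_left
    rw [← Set.diff_union_of_subset h4, ← Set.diff_union_of_subset h5, h3]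
  obtain ⟨hf2, hc2⟩ := hT _ _ hne (e1.trans e2.symm)
  rw [e1] at hf2 hc2
  have hBbG : (B \ b) ∩ G = ∅ := by
    ext n
    simp [hbdef]
  have hC : ∀ C ∈ R y (u - sg y b), C ∩ G = ∅ := by
    intro C hC
    by_contra h3
    have h4 := hmin C (B \ b) ((show sg y C = u - sg y b from hC).trans e1.symm) (by rwa [hBbG])
    rw [show sg y C = u - sg y b from hC] at h4
    linarith
  have hdisj : ∀ C ∈ R y (u - sg y b), Disjoint C b := by
    intro C hCm
    rw [Set.disjoint_left]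
    intro n hn hnb
    have : n ∈ C ∩ (G : Set ℕ) := ⟨hn, hnb.2⟩
    rw [hC C hCm] at this
    exact this
  have hinj : Set.InjOn (fun C => C ∪ b) (R y (u - sg y b)) := by
    intro C hCm C' hCm' h3
    have h3' : C ∪ b = C' ∪ b := h3
    have h5 : (C ∪ b) \ b = C := Set.union_diff_cancel_right (Set.disjoint_iff.1 (hdisj C hCm))
    have h6 : (C' ∪ b) \ b = C' := Set.union_diff_cancel_right (Set.disjoint_iff.1 (hdisj C' hCm'))
    rw [← h5, ← h6, h3']
  have hsub : (fun C => C ∪ b) '' (R y (u - sg y b)) ⊆ R y u \ {A} := by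
    rintro _ ⟨C, hCm, rfl⟩
    refine ⟨?_, ?_⟩
    · show sg y (C ∪ b) = u
      rw [sg_union hs (hdisj C hCm), show sg y C = u - sg y b from hCm]; ring
    · intro h3
      have h3' : C ∪ b = A := h3
      apply hAG
      rw [← h3', Set.union_inter_distrib_right, hC C hCm, Set.empty_union, hbdef]
      ext n; simp
  have hle := Set.ncard_le_ncard hsub (hfin.subset Set.diff_subset)
  rw [Set.ncard_image_of_injOn hinj, hc2, Set.ncard_diff_singleton_of_mem hA, hc] at hle
  omega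

end

end Pool.Agent.H256.CF
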