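import Pool.Agent.H256.CF.Sorted
import Pool.Agent.Results.MP_92898d_an.RangesWithContinuum

set_option autoImplicit false

open Set Filter Topology
open scoped Cardinal

namespace Pool.Agent.H256.CF

open Pool.Agent.Results.MP_92898d_an.RangesWithContinuum (cardFn IsRange)

/-- one more term -/
def cons (c : ℝ) (x : ℕ → ℝ) : ℕ → ℝ
  | 0 => c
  | n + 1 => x n

/-- one more digit -/
def bc (b : Bool) (e : ℕ → Bool) : ℕ → Bool
  | 0 => b
  | n + 1 => e n

lemma cons_summable {c : ℝ} {x : ℕ → ℝ} (hx : Summable (fun n => |x n|)) :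
    Summable (fun n => |cons c x n|) :=
  (summable_nat_add_iff 1).1 hx

lemma sum_fin {x : ℕ → ℝ} (hx : Summable (fun n => |x n|)) (e : ℕ → Bool) :
    Summable (fun n => if e n = true then x n else 0) := by
  apply Summable.of_norm_bounded hx
  intro n
  split_ifs
  · exact le_of_eq (Real.norm_eq_abs _)
  · simp

lemma sum_bc {c : ℝ} {x : ℕ → ℝ} (hx : Summable (fun n => |x n|)) (b : Bool) (e : ℕ → Bool) :
    ∑' n, (if bc b e n = true then cons c x n else 0) =
      (if b = true then c else 0) + ∑' n, (if e n = true then x n else 0) := by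
  rw [(sum_fin (cons_summable (c := c) hx) (bc b e)).tsum_eq_zero_add]
  rfl

lemma bc_inj (b : Bool) : Function.Injective (bc b) := by
  intro e e' h
  funext n
  exact congrFun h (n + 1)

lemma cons_card {c : ℝ} {x : ℕ → ℝ} (hx : Summable (fun n => |x n|)) (t : ℝ) :
    cardFn (cons c x) t = cardFn x t + cardFn x (t - c) := by
  let P : Set (ℕ → Bool) := {e | ∑' n, (if e n = true then cons c x n else 0) = t}
  let P0 : Set (ℕ → Bool) := {e | ∑' n, (if e n = true then x n else 0) = t}
  let P1 : Set (ℕ → Bool) := {e | ∑' n, (if e n = true then x n else 0) = t - c}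
  have hP : P = bc false '' P0 ∪ bc true '' P1 := by
    ext e
    have he : e = bc (e 0) (fun n => e (n + 1)) := by
      funext n
      cases n <;> rfl
    constructor
    · intro h
      have h' : ∑' n, (if e n = true then cons c x n else 0) = t := h
      rw [he, sum_bc hx] at h'
      cases h0 : e 0
      · left
        refine ⟨fun n => e (n + 1), ?_, ?_⟩
        · rw [h0] at h'
          have h'' : ∑' n, (if e (n + 1) = true then x n else 0) = t := by simpa using h'
          exact h''
        · rw [← h0]; exact he.symm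
      · right
        refine ⟨fun n => e (n + 1), ?_, ?_⟩
        · rw [h0] at h'
          show _ = t - c
          have h2 : c + ∑' n, (if e (n + 1) = true then x n else 0) = t := by simpa using h'
          linarith
        · rw [← h0]; exact he.symm
    · rintro (⟨e', h, rfl⟩ | ⟨e', h, rfl⟩)
      · show ∑' n, (if bc false e' n = true then cons c x n else 0) = t
        rw [sum_bc hx]
        have h' : ∑' n, (if e' n = true then x n else 0) = t := h
        rw [h']; simp
      · show ∑' n, (if bc true e' n = true then cons c x n else 0) = t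
        rw [sum_bc hx]
        have h' : ∑' n, (if e' n = true then x n else 0) = t - c := h
        rw [h']; simp
  have hd : Disjoint (bc false '' P0) (bc true '' P1) := by
    rw [Set.disjoint_left]
    rintro _ ⟨e, _, rfl⟩ ⟨e', _, h⟩
    have := congrFun h 0
    simp [bc] at this
  show #P = #P0 + #P1
  rw [hP, Cardinal.mk_union_of_disjoint hd, Cardinal.mk_image_eq (bc_inj _),
    Cardinal.mk_image_eq (bc_inj _)]

/-- the tail sequence -/
noncomputable def q : ℕ → ℝ := fun n => (1 / 4 : ℝ) ^ (n + 1)

lemma q_pos (n : ℕ) : 0 < q n := by unfold q; positivity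

lemma q_summable : Summable q := by
  have h := summable_geometric_of_lt_one (r := (1 / 4 : ℝ)) (by norm_num) (by norm_num)
  exact (summable_nat_add_iff 1).2 h

lemma q_abs : Summable (fun n => |q n|) := by
  have : (fun n => |q n|) = q := by funext n; exact abs_of_pos (q_pos n)
  rw [this]; exact q_summable

lemma q_tl (n : ℕ) : tl q n = (1 / 4 : ℝ) ^ n / 3 := by
  have h1 : ∀ n, tl q n - (1 / 4 : ℝ) ^ n / 3 = tl q 0 - (1 / 4 : ℝ) ^ 0 / 3 := by
    intro n
    induction n with
    | zero => rfl
    | succ n ih =>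
      rw [← ih]
      have h2 := tl_succ q_summable n
      rw [h2]
      unfold q
      rw [pow_succ]
      ring
  have h2 : Tendsto (fun n => tl q n - (1 / 4 : ℝ) ^ n / 3) atTop (𝓝 (0 - 0 / 3)) := by
    apply (tl_tendsto q_summable).sub
    apply Tendsto.div_const
    exact tendsto_pow_atTop_nhds_zero_of_lt_one (by norm_num) (by norm_num)
  have h3 : Tendsto (fun _ : ℕ => tl q 0 - (1 / 4 : ℝ) ^ 0 / 3) atTop (𝓝 (0 - 0 / 3)) :=
    h2.congr h1
  have h4 := tendsto_nhds_unique h3 tendsto_const_nhds
  have h5 := h1 n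
  rw [← h4] at h5
  linarith

lemma q_unique {A B : Set ℕ} (h : sg q A = sg q B) : A = B := by
  classical
  by_contra hne
  have hex : ∃ n, ¬ (n ∈ A ↔ n ∈ B) := by
    by_contra h2
    push Not at h2
    exact hne (Set.ext h2)
  have key : ∀ (A B : Set ℕ) (n : ℕ), n ∈ A → n ∉ B → (∀ k, k < n → (k ∈ A ↔ k ∈ B)) →
      sg q B < sg q A := by
    intro A B n hA hB hlt
    have h1 : (A ∩ {k | k < n}) ∪ {n} ⊆ A := by
      rintro k (hk | hk)
      · exact hk.1
      · rw [show k = n from hk]; exact hA
    have h2 := sg_mono q_pos q_summable h1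
    rw [sg_union q_summable (by
      rw [Set.disjoint_left]
      rintro k ⟨_, hk⟩ hk2
      have h3 : k < n := hk
      have h4 : k = n := hk2
      omega), sg_singleton] at h2
    have h3 : B ⊆ (A ∩ {k | k < n}) ∪ {k | n + 1 ≤ k} := by
      intro k hk
      rcases lt_trichotomy k n with h4 | h4 | h4
      · left; exact ⟨(hlt k h4).2 hk, h4⟩
      · exact absurd (h4 ▸ hk) hB
      · right; exact h4
    have h4 := sg_mono q_pos q_summable h3
    rw [sg_union q_summable (by
      rw [Set.disjoint_left]
      rintro k ⟨_, hk⟩ hk2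
      have h3 : k < n := hk
      have h4 : n + 1 ≤ k := hk2
      omega)] at h4
    have h5 : sg q {k | n + 1 ≤ k} = (1 / 4 : ℝ) ^ (n + 1) / 3 := q_tl (n + 1)
    have h6 : q n = (1 / 4 : ℝ) ^ (n + 1) := rfl
    have h7 : (0 : ℝ) < (1 / 4 : ℝ) ^ (n + 1) := by positivity
    rw [h5] at h4
    rw [h6] at h2
    linarith
  have hn := Nat.find_spec hex
  have hmin : ∀ k, k < Nat.find hex → (k ∈ A ↔ k ∈ B) := fun k hk => by
    have := Nat.find_min hex hk
    push Not at this
    exact this
  by_cases hA : Nat.find hex ∈ A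
  · have hB : Nat.find hex ∉ B := fun h2 => hn ⟨fun _ => h2, fun _ => hA⟩
    have := key A B _ hA hB hmin
    linarith
  · have hB : Nat.find hex ∈ B := by
      by_contra h2
      exact hn ⟨fun h3 => absurd h3 hA, fun h3 => absurd h3 h2⟩
    have := key B A _ hB hA (fun k hk => (hmin k hk).symm)
    linarith

lemma q_card (t : ℝ) : cardFn q t = 0 ∨ (cardFn q t = 1 ∧ 0 ≤ t ∧ t ≤ 1 / 2) := by
  have hsg : ∀ e : ℕ → Bool, ∑' n, (if e n = true then q n else 0) = sg q {n | e n = true} := by
    intro e
    apply tsum_congr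
    intro n
    by_cases hn : e n = true <;> simp [hn]
  by_cases h : ∃ e : ℕ → Bool, ∑' n, (if e n = true then q n else 0) = t
  · right
    obtain ⟨e, he⟩ := h
    refine ⟨?_, ?_, ?_⟩
    · unfold cardFn
      rw [Cardinal.eq_one_iff_unique]
      refine ⟨⟨?_⟩, ⟨⟨e, he⟩⟩⟩
      rintro ⟨e1, h1⟩ ⟨e2, h2⟩
      apply Subtype.ext
      rw [hsg] at h1 h2
      have h3 := q_unique (h1.trans h2.symm)
      funext n
      have h4 := Set.ext_iff.1 h3 n
      exact Bool.eq_iff_iff.2 h4
    · rw [← he, hsg]
      exact sg_nonneg q_pos q_summable _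
    · rw [← he, hsg]
      have h1 : ({n | e n = true} : Set ℕ) ⊆ {n | 0 ≤ n} := fun n _ => Nat.zero_le n
      have h2 := sg_mono q_pos q_summable h1
      have h3 : sg q {n | 0 ≤ n} = (1 / 4 : ℝ) ^ 0 / 3 := q_tl 0
      rw [h3] at h2
      norm_num at h2
      linarith
  · left
    unfold cardFn
    rw [Cardinal.mk_eq_zero_iff]
    exact ⟨fun e => h ⟨e.1, e.2⟩⟩

lemma q_card_zero : cardFn q 0 = 1 := by
  rcases q_card 0 with h | h
  · exfalso
    unfold cardFn at h
    rw [Cardinal.mk_eq_zero_iff] at h
    exact h.false ⟨fun _ => false, by simp⟩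
  · exact h.1

lemma q_card_neg {t : ℝ} (ht : t < 0 ∨ 1 / 2 < t) : cardFn q t = 0 := by
  rcases q_card t with h | h
  · exact h
  · exfalso
    rcases ht with h1 | h1 <;> linarith [h.2.1, h.2.2]

/-- `k` more zero terms -/
lemma zeros_card (k : ℕ) {x : ℕ → ℝ} (hx : Summable (fun n => |x n|)) :
    Summable (fun n => |(cons 0)^[k] x n|) ∧
      ∀ t, cardFn ((cons 0)^[k] x) t = ((2 ^ k : ℕ) : Cardinal) * cardFn x t := by
  induction k with
  | zero => exact ⟨hx, fun t => by simp⟩
  | succ k ih =>
    rw [Function.iterate_succ_apply']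
    refine ⟨cons_summable ih.1, fun t => ?_⟩
    rw [cons_card ih.1, sub_zero, ih.2, pow_succ, Nat.cast_mul]
    push_cast
    ring

/-- ranges of sequences multiplied by `2 ^ k` -/
lemma range_of {x : ℕ → ℝ} (hx : Summable (fun n => |x n|)) (k : ℕ) {V : Set Cardinal.{0}}
    (hV : Set.range (cardFn x) = V) :
    IsRange ((fun κ => ((2 ^ k : ℕ) : Cardinal) * κ) '' V) := by
  obtain ⟨h1, h2⟩ := zeros_card k hx
  refine ⟨_, h1, ?_⟩
  rw [← hV]
  ext κ
  constructor
  · rintro ⟨t, rfl⟩
    exact ⟨_, ⟨t, rfl⟩, (h2 t).symm⟩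
  · rintro ⟨_, ⟨t, rfl⟩, rfl⟩
    exact ⟨t, h2 t⟩

lemma range_q : Set.range (cardFn q) = {0, 1} := by
  ext κ
  constructor
  · rintro ⟨t, rfl⟩
    rcases q_card t with h | h
    · left; exact h
    · right; exact h.1
  · rintro (h | h)
    · exact ⟨-1, by rw [q_card_neg (by left; norm_num)]; exact h.symm⟩
    · exact ⟨0, by rw [q_card_zero]; exact h.symm⟩

lemma card2 (t : ℝ) : cardFn (cons 1 (cons 1 q)) t =
    cardFn q t + 2 * cardFn q (t - 1) + cardFn q (t - 2) := by
  rw [cons_card (cons_summable q_abs), cons_card q_abs, cons_card q_abs,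
    show t - 1 - 1 = t - 2 by ring]
  ring

lemma card3 (t : ℝ) : cardFn (cons 1 (cons 1 (cons 1 q))) t =
    cardFn q t + 3 * cardFn q (t - 1) + 3 * cardFn q (t - 2) + cardFn q (t - 3) := by
  rw [cons_card (cons_summable (cons_summable q_abs)), card2, card2,
    show t - 1 - 1 = t - 2 by ring, show t - 1 - 2 = t - 3 by ring]
  ring

lemma range2 : Set.range (cardFn (cons 1 (cons 1 q))) = {0, 1, 2} := by
  ext κ
  constructor
  · rintro ⟨t, rfl⟩
    rw [card2]
    rcases q_card t with h0 | ⟨h0, h0', h0''⟩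
    · rcases q_card (t - 1) with h1 | ⟨h1, h1', h1''⟩
      · rcases q_card (t - 2) with h2 | ⟨h2, h2', h2''⟩
        · rw [h0, h1, h2]; simp
        · rw [h0, h1, h2]; simp
      · rw [h0, h1, q_card_neg (t := t - 2) (by left; linarith)]; simp
    · rw [h0, q_card_neg (t := t - 1) (by left; linarith),
        q_card_neg (t := t - 2) (by left; linarith)]; simp
  · rintro (h | h | h)
    · refine ⟨-1, ?_⟩
      rw [card2, q_card_neg (by left; norm_num), q_card_neg (by left; norm_num),
        q_card_neg (by left; norm_num), h]; simp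
    · refine ⟨0, ?_⟩
      rw [card2, q_card_zero, q_card_neg (by left; norm_num), q_card_neg (by left; norm_num), h]
      simp
    · refine ⟨1, ?_⟩
      rw [card2, q_card_neg (t := 1) (by right; norm_num), show (1 : ℝ) - 1 = 0 by ring,
        q_card_zero, q_card_neg (t := 1 - 2) (by left; norm_num), show κ = 2 from h]
      simp

lemma range3 : Set.range (cardFn (cons 1 (cons 1 (cons 1 q)))) = {0, 1, 3} := by
  ext κ
  constructor
  · rintro ⟨t, rfl⟩
    rw [card3]
    rcases q_card t with h0 | ⟨h0, h0', h0''⟩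
    · rcases q_card (t - 1) with h1 | ⟨h1, h1', h1''⟩
      · rcases q_card (t - 2) with h2 | ⟨h2, h2', h2''⟩
        · rcases q_card (t - 3) with h3 | ⟨h3, h3', h3''⟩
          · rw [h0, h1, h2, h3]; simp
          · rw [h0, h1, h2, h3]; simp
        · rw [h0, h1, h2, q_card_neg (t := t - 3) (by left; linarith)]; simp
      · rw [h0, h1, q_card_neg (t := t - 2) (by left; linarith),
          q_card_neg (t := t - 3) (by left; linarith)]; simp
    · rw [h0, q_card_neg (t := t - 1) (by left; linarith),
        q_card_neg (t := t - 2) (by left; linarith),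
        q_card_neg (t := t - 3) (by left; linarith)]; simp
  · rintro (h | h | h)
    · refine ⟨-1, ?_⟩
      rw [card3, q_card_neg (by left; norm_num), q_card_neg (by left; norm_num),
        q_card_neg (by left; norm_num), q_card_neg (by left; norm_num), h]; simp
    · refine ⟨0, ?_⟩
      rw [card3, q_card_zero, q_card_neg (by left; norm_num), q_card_neg (by left; norm_num),
        q_card_neg (by left; norm_num), h]
      simp
    · refine ⟨1, ?_⟩
      rw [card3, q_card_neg (t := 1) (by right; norm_num), show (1 : ℝ) - 1 = 0 by ring,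
        q_card_zero, q_card_neg (t := 1 - 2) (by left; norm_num),
        q_card_neg (t := 1 - 3) (by left; norm_num), show κ = 3 from h]
      simp

theorem suf1 (k : ℕ) : IsRange {0, ((2 ^ k : ℕ) : Cardinal.{0})} := by
  have h := range_of q_abs k range_q
  rw [Set.image_pair, mul_zero, mul_one] at h
  exact h

theorem suf2 (k : ℕ) :
    IsRange {0, ((2 ^ k : ℕ) : Cardinal.{0}), ((2 * 2 ^ k : ℕ) : Cardinal.{0})} := by
  have h := range_of (cons_summable (cons_summable q_abs)) k range2
  rw [Set.image_insert_eq, Set.image_pair, mul_zero, mul_one] at h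
  have h2 : ((2 * 2 ^ k : ℕ) : Cardinal.{0}) = ((2 ^ k : ℕ) : Cardinal) * 2 := by
    push_cast; ring
  rw [h2]
  exact h

theorem suf3 (k : ℕ) :
    IsRange {0, ((2 ^ k : ℕ) : Cardinal.{0}), ((3 * 2 ^ k : ℕ) : Cardinal.{0})} := by
  have h := range_of (cons_summable (cons_summable (cons_summable q_abs))) k range3
  rw [Set.image_insert_eq, Set.image_pair, mul_zero, mul_one] at h
  have h2 : ((3 * 2 ^ k : ℕ) : Cardinal.{0}) = ((2 ^ k : ℕ) : Cardinal) * 3 := by
    push_cast; ring
  rw [h2]
  exact h

end Pool.Agent.H256.CF
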