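import Mathlib

set_option autoImplicit false

open Set Filter Topology

namespace Pool.Agent.H256.CF

section
variable {ι : Type} [Encodable ι] [Infinite ι] (y : ι → ℝ) (hy : ∀ i, 0 < y i) (hs : Summable y)

/-- `i` comes before `j`: larger value, ties by the code -/
def prec (y : ι → ℝ) (i j : ι) : Prop :=
  y j < y i ∨ (y i = y j ∧ Encodable.encode i < Encodable.encode j)

omit [Infinite ι] in
lemma prec_irrefl (i : ι) : ¬ prec y i i := by
  rintro (h | h)
  · exact lt_irrefl _ h
  · exact lt_irrefl _ h.2

omit [Infinite ι] in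
lemma prec_trans {i j k : ι} (h1 : prec y i j) (h2 : prec y j k) : prec y i k := by
  rcases h1 with h1 | ⟨h1, h1'⟩ <;> rcases h2 with h2 | ⟨h2, h2'⟩
  · exact Or.inl (h2.trans h1)
  · exact Or.inl (h2 ▸ h1)
  · exact Or.inl (h1 ▸ h2)
  · exact Or.inr ⟨h1.trans h2, h1'.trans h2'⟩

omit [Infinite ι] in
lemma prec_total {i j : ι} (h : i ≠ j) : prec y i j ∨ prec y j i := by
  rcases lt_trichotomy (y i) (y j) with h1 | h1 | h1
  · exact Or.inr (Or.inl h1)
  · have h2 : Encodable.encode i ≠ Encodable.encode j := fun h3 => h (Encodable.encode_injective h3)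
    rcases lt_or_gt_of_ne h2 with h3 | h3
    · exact Or.inl (Or.inr ⟨h1, h3⟩)
    · exact Or.inr (Or.inr ⟨h1.symm, h3⟩)
  · exact Or.inl (Or.inl h1)

/-- the position of `i` -/
noncomputable def rank (y : ι → ℝ) (i : ι) : ℕ := {j | prec y j i}.ncard

include hy hs

omit [Infinite ι] in
lemma prec_finite (i : ι) : {j | prec y j i}.Finite := by
  have h1 := hs.tendsto_cofinite_zero.eventually (Iio_mem_nhds (hy i))
  rw [Filter.eventually_cofinite] at h1
  refine h1.subset (fun j hj => ?_)
  show ¬ (y j < y i)
  rcases hj with h | h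
  · exact not_lt.2 h.le
  · exact not_lt.2 h.1.ge

omit [Infinite ι] in
lemma rank_lt {i j : ι} (h : prec y i j) : rank y i < rank y j := by
  apply Set.ncard_lt_ncard _ (prec_finite y hy hs j)
  refine ⟨fun k hk => prec_trans y hk h, fun hsub => ?_⟩
  exact prec_irrefl y i (hsub h)

omit [Infinite ι] in
lemma rank_inj : Function.Injective (rank y) := by
  intro i j h
  by_contra hne
  rcases prec_total y hne with h1 | h1
  · exact absurd h (rank_lt y hy hs h1).ne
  · exact absurd h (rank_lt y hy hs h1).ne'

lemma rank_surj : Function.Surjective (rank y) := by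
  classical
  intro k
  have hex : ∃ r, k ≤ r ∧ ∃ i, rank y i = r := by
    by_contra h
    push Not at h
    have h1 : ∀ i, rank y i < k := by
      intro i
      by_contra h2
      exact h (rank y i) (not_lt.1 h2) i rfl
    exact (not_finite_iff_infinite.2 ‹Infinite ι›) (Finite.of_injective
      (fun i => (⟨rank y i, h1 i⟩ : Fin k)) (fun i j hij => rank_inj y hy hs (by simpa using hij)))
  obtain ⟨h1, i, h2⟩ := Nat.find_spec hex
  set r := Nat.find hex with hr
  refine ⟨i, ?_⟩
  have hsub : {j | prec y j i} ⊆ {j | rank y j < k} := by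
    intro j hj
    by_contra h3
    have h4 : k ≤ rank y j := not_lt.1 h3
    have h5 : rank y j < r := by rw [← h2]; exact rank_lt y hy hs hj
    exact Nat.find_min hex h5 ⟨h4, j, rfl⟩
  have hfin : {j | rank y j < k}.Finite :=
    Set.Finite.preimage ((rank_inj y hy hs).injOn) (Set.finite_lt_nat k)
  have h3 : {j | prec y j i}.ncard ≤ {j | rank y j < k}.ncard := Set.ncard_le_ncard hsub hfin
  have h4 : {j | rank y j < k}.ncard ≤ (Set.Iio k).ncard := by
    apply Set.ncard_le_ncard_of_injOn (rank y)
    · intro j hj; exact hj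
    · exact (rank_inj y hy hs).injOn
  have h5 : (Set.Iio k).ncard = k := by
    rw [Set.ncard_eq_toFinset_card']
    simp
  have h6 : rank y i ≤ k := by
    unfold rank
    omega
  omega

lemma exists_sort : ∃ e : ℕ ≃ ι, Antitone (fun n => y (e n)) := by
  let e := (Equiv.ofBijective (rank y) ⟨rank_inj y hy hs, rank_surj y hy hs⟩).symm
  have he : ∀ n, rank y (e n) = n := fun n =>
    (Equiv.ofBijective (rank y) ⟨rank_inj y hy hs, rank_surj y hy hs⟩).apply_symm_apply n
  refine ⟨e, fun m n hmn => ?_⟩
  rcases hmn.lt_or_eq with h | h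
  · have h1 : e m ≠ e n := fun h2 => h.ne (e.injective h2)
    rcases prec_total y h1 with h2 | h2
    · rcases h2 with h3 | h3
      · exact h3.le
      · exact h3.1.ge
    · have h3 := rank_lt y hy hs h2
      rw [he, he] at h3
      omega
  · rw [h]

end

end Pool.Agent.H256.CF
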