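import Pool.Agent.H256.CF.Sorted
import Pool.Agent.H256.CF.Sort
import Pool.Agent.Results.MP_92898d_an.RangesWithContinuum

set_option autoImplicit false

open Set Filter Topology
open scoped Cardinal

namespace Pool.Agent.H256.CF

open Pool.Agent.Results.MP_92898d_an.RangesWithContinuum

/-- reduction to sorted sequences of positive numbers -/
theorem G_eq {x : ℕ → ℝ} (hx : Summable (fun n => |x n|)) (hz : {n | x n = 0}.Finite) :
    ∃ z : ℕ → ℝ, (∀ n, 0 < z n) ∧ Summable z ∧ Antitone z ∧
      ∃ c : ℝ, ∀ t, G x t = #(R z (t - c)) := by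
  classical
  have hinf : Infinite {n // ¬ x n = 0} := (hz.infinite_compl).to_subtype
  let _ : Encodable {n // ¬ x n = 0} := Encodable.ofCountable _
  let y : {n // ¬ x n = 0} → ℝ := fun i => |x i.1|
  have hy : ∀ i, 0 < y i := fun i => abs_pos.2 i.2
  have hys : Summable y := hx.comp_injective (i := fun i : {n // ¬ x n = 0} => i.1)
    Subtype.val_injective
  obtain ⟨e, he⟩ := exists_sort y hy hys
  let z : ℕ → ℝ := fun n => |x (e n).1|
  have hzp : ∀ n, 0 < z n := fun n => hy (e n)
  have hzs : Summable z := (Equiv.summable_iff e (f := y)).2 hys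
  let cc : ℕ → ℝ := fun k => if x (e k).1 < 0 then x (e k).1 else 0
  have hcc : Summable cc := by
    apply Summable.of_norm_bounded hzs
    intro n
    simp only [cc, z]
    split_ifs
    · exact le_of_eq (Real.norm_eq_abs _)
    · simp
  let Φ : ({n // ¬ x n = 0} → Bool) ≃ Set ℕ :=
    { toFun := fun σ => {k | σ (e k) = true ↔ 0 < x (e k).1}
      invFun := fun A i => decide (e.symm i ∈ A ↔ 0 < x i.1)
      left_inv := by
        intro σ
        funext i
        simp only [Set.mem_setOf_eq, Equiv.apply_symm_apply]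
        by_cases h1 : 0 < x i.1 <;> cases h2 : σ i <;> simp [h1]
      right_inv := by
        intro A
        ext k
        simp only [Set.mem_setOf_eq, Equiv.symm_apply_apply, decide_eq_true_eq]
        tauto }
  have hΦ : ∀ σ k, k ∈ Φ σ ↔ (σ (e k) = true ↔ 0 < x (e k).1) := fun σ k => Iff.rfl
  have hext : ∀ (σ : {n // ¬ x n = 0} → Bool) (i : {n // ¬ x n = 0}), ext x σ i.1 = σ i := by
    intro σ i
    simp [Pool.Agent.Results.MP_92898d_an.RangesWithContinuum.ext, i.2]
  have key : ∀ σ, f x (ext x σ) = sg z (Φ σ) + ∑' k, cc k := by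
    intro σ
    have h1 : f x (ext x σ) = ∑' i : {n // ¬ x n = 0}, (if ext x σ i.1 = true then x i.1 else 0) := by
      unfold f
      refine (tsum_subtype_eq_of_support_subset (s := {n | ¬ x n = 0})
        (f := fun n => if ext x σ n = true then x n else 0) ?_).symm
      intro n hn h0
      apply hn
      have h0' : x n = 0 := by simpa using h0
      simp [h0']
    rw [h1, ← Equiv.tsum_eq e, sg, ← (sgs hzs (Φ σ)).tsum_add hcc]
    apply tsum_congr
    intro k
    rw [hext]
    have hne : x (e k).1 ≠ 0 := (e k).2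
    rcases lt_or_gt_of_ne hne with h2 | h2
    · have h3 : ¬ 0 < x (e k).1 := not_lt.2 h2.le
      have hzk : z k = - x (e k).1 := abs_of_neg h2
      have hck : cc k = x (e k).1 := if_pos h2
      cases h4 : σ (e k)
      · have h5 : k ∈ Φ σ := by rw [hΦ, h4]; simp [h3]
        rw [Set.indicator_of_mem h5, hzk, hck]; simp
      · have h5 : k ∉ Φ σ := by rw [hΦ, h4]; simp [h3]
        rw [Set.indicator_of_notMem h5, hck]; simp
    · have hzk : z k = x (e k).1 := abs_of_pos h2
      have hck : cc k = 0 := if_neg (not_lt.2 h2.le)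
      cases h4 : σ (e k)
      · have h5 : k ∉ Φ σ := by rw [hΦ, h4]; simp [h2]
        rw [Set.indicator_of_notMem h5, hck]; simp
      · have h5 : k ∈ Φ σ := by rw [hΦ, h4]; simp [h2]
        rw [Set.indicator_of_mem h5, hzk, hck]; simp
  refine ⟨z, hzp, hzs, he, ∑' k, cc k, fun t => ?_⟩
  unfold G
  apply Cardinal.mk_congr
  refine Equiv.subtypeEquiv Φ (fun σ => ?_)
  rw [key σ]
  show _ ↔ sg z (Φ σ) = t - _
  constructor
  · intro h; linarith
  · intro h; linarith

lemma of_mk {S : Set (Set ℕ)} {g : ℕ} (h : #S = (g : Cardinal.{0})) : S.Finite ∧ S.ncard = g := by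
  constructor
  · apply Cardinal.lt_aleph0_iff_set_finite.1
    rw [h]
    exact Cardinal.natCast_lt_aleph0
  · rw [← Nat.card_coe_set_eq]
    unfold Nat.card
    rw [h]
    simp

/-- the number of zero terms gives a power of two, and the rest of the values -/
lemma values {x : ℕ → ℝ} (hx : Summable (fun n => |x n|))
    (hfin : ∀ t, cardFn x t < ℵ₀) :
    ∃ k : ℕ, (∃ t, cardFn x t = ((2 ^ k : ℕ) : Cardinal)) ∧
      ∀ t, ∃ g : ℕ, G x t = (g : Cardinal) ∧ cardFn x t = ((2 ^ k * g : ℕ) : Cardinal) := by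
  have hz : {n | x n = 0}.Finite := by
    by_contra h
    have h1 : {n | x n = 0}.Infinite := h
    obtain ⟨t, ht⟩ := exists_unique_rep hx
    unfold G at ht
    rw [Cardinal.eq_one_iff_unique] at ht
    obtain ⟨_, ⟨σ, hσ⟩⟩ := ht
    rcases inf_zeros h1 t with h2 | h2
    · unfold cardFn at h2
      rw [Cardinal.mk_eq_zero_iff] at h2
      exact h2.false ⟨ext x σ, hσ⟩
    · have h3 := hfin t
      rw [h2] at h3
      exact absurd h3 (not_lt.2 Cardinal.aleph0_le_continuum)
  obtain ⟨k, hk⟩ := fin_zeros hz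
  refine ⟨k, ?_, fun t => ?_⟩
  · obtain ⟨t, ht⟩ := exists_unique_rep hx
    exact ⟨t, by rw [hk t, ht, mul_one]⟩
  · have h2 : G x t ≤ ((2 ^ k : ℕ) : Cardinal) * G x t := by
      have h3 : (1 : Cardinal) ≤ ((2 ^ k : ℕ) : Cardinal) := by
        exact_mod_cast Nat.one_le_two_pow
      calc G x t = 1 * G x t := (one_mul _).symm
        _ ≤ _ := mul_le_mul_left h3 _
    have h4 := hfin t
    rw [hk t] at h4
    obtain ⟨g, hg⟩ := Cardinal.lt_aleph0.1 (lt_of_le_of_lt h2 h4)
    exact ⟨g, hg, by rw [hk t, hg]; push_cast; rfl⟩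

/-- necessity -/
theorem nec {x : ℕ → ℝ} (hx : Summable (fun n => |x n|)) {a b : ℕ} (ha : 0 < a) (hab : a < b)
    (hr : Set.range (cardFn x) = {0, (a : Cardinal.{0}), (b : Cardinal.{0})}) :
    ∃ k, a = 2 ^ k ∧ (b = 2 * 2 ^ k ∨ b = 3 * 2 ^ k) := by
  have hval : ∀ t, cardFn x t = 0 ∨ cardFn x t = (a : Cardinal.{0}) ∨
      cardFn x t = (b : Cardinal.{0}) := by
    intro t
    have h1 : cardFn x t ∈ Set.range (cardFn x) := ⟨t, rfl⟩
    rw [hr] at h1
    exact h1
  have hfin : ∀ t, cardFn x t < ℵ₀ := by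
    intro t
    rcases hval t with h | h | h <;> rw [h]
    · exact Cardinal.aleph0_pos
    · exact Cardinal.natCast_lt_aleph0
    · exact Cardinal.natCast_lt_aleph0
  have hz : {n | x n = 0}.Finite := by
    by_contra h
    have h1 : {n | x n = 0}.Infinite := h
    have h2 : (a : Cardinal.{0}) ∈ Set.range (cardFn x) := by rw [hr]; simp
    obtain ⟨t, ht⟩ := h2
    rcases inf_zeros h1 t with h3 | h3
    · rw [ht] at h3
      have : a = 0 := by exact_mod_cast h3
      omega
    · have h4 := hfin t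
      rw [h3] at h4
      exact absurd h4 (not_lt.2 Cardinal.aleph0_le_continuum)
  obtain ⟨k, ⟨t0, ht0⟩, hk⟩ := values hx hfin
  have hpow : 0 < 2 ^ k := by positivity
  obtain ⟨ta, hta⟩ : ∃ t, cardFn x t = (a : Cardinal.{0}) := by
    have h2 : (a : Cardinal.{0}) ∈ Set.range (cardFn x) := by rw [hr]; simp
    exact h2
  obtain ⟨tb, htb⟩ : ∃ t, cardFn x t = (b : Cardinal.{0}) := by
    have h2 : (b : Cardinal.{0}) ∈ Set.range (cardFn x) := by rw [hr]; simp
    exact h2
  obtain ⟨ga, hga, hga'⟩ := hk ta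
  rw [hta] at hga'
  have hga2 : a = 2 ^ k * ga := by exact_mod_cast hga'
  have hga1 : 1 ≤ ga := by
    rcases Nat.eq_zero_or_pos ga with h | h
    · rw [h] at hga2; omega
    · exact h
  have hle : 2 ^ k ≤ a := by rw [hga2]; exact Nat.le_mul_of_pos_right _ hga1
  have hak : a = 2 ^ k := by
    rcases hval t0 with h | h | h
    · rw [ht0] at h
      have : (2 ^ k : ℕ) = 0 := by exact_mod_cast h
      omega
    · rw [ht0] at h
      have : (2 ^ k : ℕ) = a := by exact_mod_cast h
      exact this.symm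
    · rw [ht0] at h
      have : (2 ^ k : ℕ) = b := by exact_mod_cast h
      omega
  obtain ⟨m, hm, hm'⟩ := hk tb
  rw [htb] at hm'
  have hb : b = 2 ^ k * m := by exact_mod_cast hm'
  have hm2 : 2 ≤ m := by
    by_contra h
    have h1 : m ≤ 1 := by omega
    have h2 : b ≤ 2 ^ k * 1 := by rw [hb]; exact Nat.mul_le_mul_left _ h1
    omega
  refine ⟨k, hak, ?_⟩
  have hm3 : m ≤ 3 := by
    by_contra h3
    have hm4 : 4 ≤ m := by omega
    obtain ⟨z, hz1, hz2, hz3, c, hG⟩ := G_eq hx hz
    have hvals : ∀ s, ∃ g : ℕ, #(R z s) = (g : Cardinal.{0}) ∧ (g = 0 ∨ g = 1 ∨ g = m) := by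
      intro s
      obtain ⟨g, hg, hg'⟩ := hk (s + c)
      refine ⟨g, ?_, ?_⟩
      · rw [← hg, hG, add_sub_cancel_right]
      · rcases hval (s + c) with h | h | h
        · rw [hg'] at h
          have h5 : 2 ^ k * g = 0 := by exact_mod_cast h
          left
          rcases Nat.mul_eq_zero.1 h5 with h6 | h6
          · omega
          · exact h6
        · rw [hg'] at h
          have h5 : 2 ^ k * g = a := by exact_mod_cast h
          right; left
          rw [hak] at h5
          have h6 : 2 ^ k * g = 2 ^ k * 1 := by omega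
          exact Nat.eq_of_mul_eq_mul_left hpow h6
        · rw [hg'] at h
          have h5 : 2 ^ k * g = b := by exact_mod_cast h
          right; right
          rw [hb] at h5
          exact Nat.eq_of_mul_eq_mul_left hpow h5
    have hT : Two z m := by
      intro A B hAB he
      obtain ⟨g, hg, hg'⟩ := hvals (sg z A)
      obtain ⟨h5, h6⟩ := of_mk hg
      have h7 : 1 < (R z (sg z A)).ncard := (Set.one_lt_ncard h5).2 ⟨A, rfl, B, he.symm, hAB⟩
      refine ⟨h5, ?_⟩
      rcases hg' with h | h | h <;> omega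
    have hrel : ∃ A B : Set ℕ, A ≠ B ∧ sg z A = sg z B := by
      have h4 : #(R z (tb - c)) = (m : Cardinal.{0}) := by rw [← hG, hm]
      obtain ⟨h5, h6⟩ := of_mk h4
      obtain ⟨A, hA, B, hB, hne⟩ := (Set.one_lt_ncard h5).1 (by omega)
      exact ⟨A, B, hne, (show sg z A = tb - c from hA).trans (show sg z B = tb - c from hB).symm⟩
    exact sorted_main hz1 hz2 hz3 hm4 hT hrel
  have : m = 2 ∨ m = 3 := by omega
  rcases this with h | h
  · left; rw [hb, h]; ring
  · right; rw [hb, h]; ring

end Pool.Agent.H256.CF
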