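import Pool.Agent.H256.CF.Core

set_option autoImplicit false

open Set Filter Topology

namespace Pool.Agent.H256.CF

open Classical in
/-- the remainders of the greedy algorithm -/
noncomputable def gr (x : ℕ → ℝ) (N : ℕ) (v : ℝ) : ℕ → ℝ
  | 0 => v
  | n + 1 => if N ≤ n ∧ x n ≤ gr x N v n then gr x N v n - x n else gr x N v n

/-- the tail sum from `n` on -/
noncomputable def tl (x : ℕ → ℝ) (n : ℕ) : ℝ := sg x {k | n ≤ k}

section
variable {x : ℕ → ℝ} (hx : ∀ n, 0 < x n) (hs : Summable x)
include hs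

lemma tl_succ (n : ℕ) : tl x n = x n + tl x (n + 1) := by
  unfold tl
  rw [← sg_singleton x n, ← sg_union hs (by
    rw [Set.disjoint_left]
    intro k hk hk2
    have h1 : k = n := hk
    have h2 : n + 1 ≤ k := hk2
    omega)]
  congr 1
  ext k
  simp only [Set.mem_union, Set.mem_singleton_iff, Set.mem_setOf_eq]
  omega

lemma tl_tendsto : Tendsto (tl x) atTop (𝓝 0) := by
  have h1 : ∀ n, tl x n = tl x 0 - ∑ k ∈ Finset.range n, x k := by
    intro n
    induction n with
    | zero => simp
    | succ n ih =>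
      rw [Finset.sum_range_succ]
      have := tl_succ hs n
      linarith
  have h0 : tl x 0 = ∑' n, x n := by
    unfold tl sg
    apply tsum_congr
    intro n
    simp
  have h2 := hs.hasSum.tendsto_sum_nat
  have h3 : Tendsto (fun n => tl x 0 - ∑ k ∈ Finset.range n, x k) atTop (𝓝 (tl x 0 - ∑' n, x n)) :=
    tendsto_const_nhds.sub h2
  rw [h0, sub_self] at h3
  refine h3.congr (fun n => ?_)
  rw [h1 n, h0]

include hx

lemma tl_pos (n : ℕ) : 0 < tl x n := sg_pos hx hs ⟨n, le_refl n⟩

/-- Kakeya: if no term exceeds the sum of the later ones, the subsums fill intervals -/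
lemma kakeya {k0 : ℕ} (hK : ∀ n, k0 ≤ n → x n ≤ tl x (n + 1)) {N : ℕ} (hN : k0 ≤ N) {v : ℝ}
    (h0 : 0 ≤ v) (h1 : v ≤ tl x N) : ∃ A : Set ℕ, A ⊆ {k | N ≤ k} ∧ sg x A = v := by
  classical
  obtain ⟨rem, hrem0, hremd⟩ : ∃ rem : ℕ → ℝ, rem 0 = v ∧ rem = gr x N v := ⟨_, rfl, rfl⟩
  have hp : ∀ n, N ≤ n → x n ≤ rem n → rem (n + 1) = rem n - x n := by
    intro n h1 h2
    subst hremd
    rw [gr, if_pos ⟨h1, h2⟩]
  have hn' : ∀ n, ¬ (N ≤ n ∧ x n ≤ rem n) → rem (n + 1) = rem n := by
    intro n h1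
    subst hremd
    rw [gr, if_neg h1]
  let A : Set ℕ := {n | N ≤ n ∧ x n ≤ rem n}
  have hlow : ∀ n, n ≤ N → rem n = v := by
    intro n
    induction n with
    | zero => intro _; exact hrem0
    | succ n ih =>
      intro hn
      have hng : ¬ (N ≤ n ∧ x n ≤ rem n) := fun h => by have := h.1; omega
      rw [hn' n hng]
      exact ih (by omega)
  have hinv : ∀ j, 0 ≤ rem (N + j) ∧ rem (N + j) ≤ tl x (N + j) := by
    intro j
    induction j with
    | zero =>
      rw [Nat.add_zero, hlow N le_rfl]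
      exact ⟨h0, h1⟩
    | succ j ih =>
      rw [← Nat.add_assoc]
      have ht := tl_succ hs (N + j)
      by_cases h : N ≤ N + j ∧ x (N + j) ≤ rem (N + j)
      · rw [hp _ h.1 h.2]
        constructor
        · linarith [h.2]
        · linarith [ih.2]
      · rw [hn' _ h]
        constructor
        · exact ih.1
        · have h2 : ¬ x (N + j) ≤ rem (N + j) := fun h3 => h ⟨by omega, h3⟩
          have h3 := hK (N + j) (by omega)
          linarith
  have hsum : ∀ n, rem n = v - ∑ j ∈ Finset.range n, A.indicator x j := by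
    intro n
    induction n with
    | zero => simp [hrem0]
    | succ n ih =>
      rw [Finset.sum_range_succ]
      by_cases h : N ≤ n ∧ x n ≤ rem n
      · rw [hp n h.1 h.2, Set.indicator_of_mem (show n ∈ A from h), ih]; ring
      · rw [hn' n h, Set.indicator_of_notMem (show n ∉ A from h), ih]; ring
  have hlim1 : Tendsto rem atTop (𝓝 0) := by
    refine squeeze_zero' (f := rem) (g := tl x) ?_ ?_ (tl_tendsto hs)
    · filter_upwards [eventually_ge_atTop N] with n hn
      obtain ⟨j, rfl⟩ := Nat.exists_eq_add_of_le hn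
      exact (hinv j).1
    · filter_upwards [eventually_ge_atTop N] with n hn
      obtain ⟨j, rfl⟩ := Nat.exists_eq_add_of_le hn
      exact (hinv j).2
  have hlim2 : Tendsto rem atTop (𝓝 (v - sg x A)) := by
    have h2 := (sgs hs A).hasSum.tendsto_sum_nat
    have h3 : Tendsto (fun n => v - ∑ j ∈ Finset.range n, A.indicator x j) atTop (𝓝 (v - sg x A)) :=
      tendsto_const_nhds.sub h2
    exact h3.congr (fun n => (hsum n).symm)
  refine ⟨A, fun n hn => hn.1, ?_⟩
  have := tendsto_nhds_unique hlim1 hlim2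
  linarith

/-- infinitely many strict inequalities give a number with infinitely many representations -/
lemma infinite_reps {k0 : ℕ} (hK : ∀ n, k0 ≤ n → x n ≤ tl x (n + 1))
    (hinf : ∀ N, ∃ n, N ≤ n ∧ x n < tl x (n + 1)) : ∃ t, (R x t).Infinite := by
  classical
  let S : Set ℕ := {n | k0 ≤ n ∧ x n < tl x (n + 1)}
  have step : ∀ n : S, ∃ n' : S, n.1 < n'.1 ∧ tl x n'.1 ≤ tl x (n.1 + 1) - x n.1 := by
    intro n
    have h1 : 0 < tl x (n.1 + 1) - x n.1 := sub_pos.2 n.2.2
    obtain ⟨M, hM⟩ := ((tl_tendsto hs).eventually (Iio_mem_nhds h1)).exists_forall_of_atTop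
    obtain ⟨n', hn', hn''⟩ := hinf (max M (max (n.1 + 1) k0))
    have a1 : M ≤ n' := le_trans (le_max_left _ _) hn'
    have a2 : n.1 + 1 ≤ n' := le_trans (le_trans (le_max_left _ _) (le_max_right _ _)) hn'
    have a3 : k0 ≤ n' := le_trans (le_trans (le_max_right _ _) (le_max_right _ _)) hn'
    exact ⟨⟨n', a3, hn''⟩, by show n.1 < n'; omega, (hM n' a1).le⟩
  choose nx hnx1 hnx2 using step
  obtain ⟨n0, hn0, hn0'⟩ := hinf k0
  let sq : ℕ → S := fun k => Nat.rec ⟨n0, hn0, hn0'⟩ (fun _ s => nx s) k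
  have hsq : ∀ k, sq (k + 1) = nx (sq k) := fun k => rfl
  have hmono : StrictMono (fun k => (sq k).1) := by
    apply strictMono_nat_of_lt_succ
    intro k
    rw [hsq]
    exact hnx1 (sq k)
  let J : Set ℕ := Set.range (fun k => (sq k).1)
  let A : Set ℕ := {n | k0 ≤ n} \ J
  have hJ : ∀ k, (sq k).1 ∉ A := fun k h => h.2 ⟨k, rfl⟩
  have hW : ∀ k, ∃ W : Set ℕ, W ⊆ {j | (sq k).1 + 1 ≤ j} ∧
      sg x W = sg x (A ∩ {j | (sq k).1 + 1 ≤ j}) - x (sq k).1 := by
    intro k
    apply kakeya hx hs hK (N := (sq k).1 + 1) (le_trans (sq k).2.1 (Nat.le_succ _))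
    · have h1 : ({j | (sq k).1 + 1 ≤ j} : Set ℕ) ⊆
          (A ∩ {j | (sq k).1 + 1 ≤ j}) ∪ {j | (sq (k + 1)).1 ≤ j} := by
        intro j hj
        by_cases hjJ : j ∈ J
        · right
          obtain ⟨l, hl⟩ := hjJ
          have hl' : (sq l).1 = j := hl
          have h2 : (sq k).1 < (sq l).1 := by
            rw [hl']; exact hj
          have h3 : k < l := hmono.lt_iff_lt.1 h2
          show (sq (k + 1)).1 ≤ j
          rw [← hl']
          exact hmono.monotone h3
        · left
          refine ⟨⟨?_, hjJ⟩, hj⟩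
          have h4 := (sq k).2.1
          have h5 : (sq k).1 + 1 ≤ j := hj
          show k0 ≤ j
          omega
      have h2 := sg_mono hx hs h1
      have h3 : sg x ((A ∩ {j | (sq k).1 + 1 ≤ j}) ∪ {j | (sq (k + 1)).1 ≤ j}) ≤
          sg x (A ∩ {j | (sq k).1 + 1 ≤ j}) + tl x (sq (k + 1)).1 := by
        have h4 : (A ∩ {j | (sq k).1 + 1 ≤ j}) ∪ {j | (sq (k + 1)).1 ≤ j} =
            (A ∩ {j | (sq k).1 + 1 ≤ j}) ∪
              ({j | (sq (k + 1)).1 ≤ j} \ (A ∩ {j | (sq k).1 + 1 ≤ j})) := by
          rw [Set.union_diff_self]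
        rw [h4, sg_union hs Set.disjoint_sdiff_right]
        have h5 := sg_mono hx hs (Set.diff_subset (s := {j | (sq (k + 1)).1 ≤ j})
          (t := A ∩ {j | (sq k).1 + 1 ≤ j}))
        unfold tl
        linarith
      have h6 := hnx2 (sq k)
      rw [← hsq] at h6
      unfold tl at h6 h3
      linarith
    · have h1 := sg_mono hx hs (Set.inter_subset_right (s := A) (t := {j | (sq k).1 + 1 ≤ j}))
      have h2 := hx (sq k).1
      unfold tl
      linarith
  choose W hW1 hW2 using hW
  let B : ℕ → Set ℕ := fun k => (A ∩ {j | j < (sq k).1}) ∪ ({(sq k).1} ∪ W k)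
  have hB : ∀ k, sg x (B k) = sg x A := by
    intro k
    have d1 : Disjoint ({(sq k).1} : Set ℕ) (W k) := by
      rw [Set.disjoint_left]
      intro j hj hj2
      have h1 := hW1 k hj2
      have h2 : j = (sq k).1 := hj
      have h3 : (sq k).1 + 1 ≤ j := h1
      omega
    have d2 : Disjoint (A ∩ {j | j < (sq k).1}) ({(sq k).1} ∪ W k) := by
      rw [Set.disjoint_left]
      rintro j ⟨_, hj⟩ hj2
      have h0 : j < (sq k).1 := hj
      rcases hj2 with hj2 | hj2
      · have h2 : j = (sq k).1 := hj2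
        omega
      · have h3 : (sq k).1 + 1 ≤ j := hW1 k hj2
        omega
    have d3 : Disjoint (A ∩ {j | j < (sq k).1}) (A ∩ {j | (sq k).1 + 1 ≤ j}) := by
      rw [Set.disjoint_left]
      rintro j ⟨_, hj⟩ ⟨_, hj2⟩
      have h0 : j < (sq k).1 := hj
      have h3 : (sq k).1 + 1 ≤ j := hj2
      omega
    have hA : A = (A ∩ {j | j < (sq k).1}) ∪ (A ∩ {j | (sq k).1 + 1 ≤ j}) := by
      ext j
      constructor
      · intro hj
        rcases lt_trichotomy j (sq k).1 with h | h | h
        · left; exact ⟨hj, h⟩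
        · exact absurd (h ▸ hj) (hJ k)
        · right; exact ⟨hj, h⟩
      · rintro (h | h)
        · exact h.1
        · exact h.1
    have e1 : sg x A = sg x (A ∩ {j | j < (sq k).1}) + sg x (A ∩ {j | (sq k).1 + 1 ≤ j}) := by
      rw [← sg_union hs d3, ← hA]
    show sg x ((A ∩ {j | j < (sq k).1}) ∪ ({(sq k).1} ∪ W k)) = _
    rw [sg_union hs d2, sg_union hs d1, sg_singleton, hW2, e1]
    ring
  refine ⟨sg x A, Set.infinite_of_injective_forall_mem (f := B) ?_ hB⟩
  have hlt : ∀ k l, k < l → B k ≠ B l := by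
    intro k l hkl h
    have h1 : (sq k).1 ∈ B k := Or.inr (Or.inl rfl)
    rw [h] at h1
    have hkl' : (sq k).1 < (sq l).1 := hmono hkl
    rcases h1 with h1 | h1 | h1
    · exact hJ k h1.1
    · have h2 : (sq k).1 = (sq l).1 := h1
      omega
    · have h3 : (sq l).1 + 1 ≤ (sq k).1 := hW1 l h1
      omega
  intro k l h
  rcases lt_trichotomy k l with h1 | h1 | h1
  · exact absurd h (hlt k l h1)
  · exact h1
  · exact absurd h.symm (hlt l k h1)

/-- a sorted sequence cannot have cardinality function with values in `{0, 1, m}`, `m ≥ 4` -/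
theorem sorted_main (ha : Antitone x) {m : ℕ} (hm : 4 ≤ m) (hT : Two x m)
    (hrel : ∃ A B : Set ℕ, A ≠ B ∧ sg x A = sg x B) : False := by
  classical
  obtain ⟨A0, B0, hne0, he0⟩ := hrel
  obtain ⟨k0, hk0⟩ : ∃ k, ¬ (k ∈ A0 ↔ k ∈ B0) := by
    by_contra h
    push Not at h
    exact hne0 (Set.ext h)
  have hK : ∀ n, k0 ≤ n → x n ≤ tl x (n + 1) := by
    intro n hn
    obtain ⟨A, B, h1, ⟨i, hi⟩, h3⟩ := beta hx hs hm hT (Finset.range (n + 1)) ⟨A0, B0, he0, by
      intro h
      apply hk0
      have h4 := Set.ext_iff.1 h k0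
      simpa [show k0 < n + 1 by omega] using h4⟩
    have hin : i ≤ n := by
      have := hi.2
      simp at this
      omega
    have h4 : x n ≤ sg x A := (ha hin).trans (le_sg hx hs hi.1)
    have h5 : B ⊆ {k | n + 1 ≤ k} := by
      intro k hk
      by_contra h6
      have h7 : k ∈ B ∩ (Finset.range (n + 1) : Finset ℕ) := by
        refine ⟨hk, ?_⟩
        simp only [Set.mem_setOf_eq] at h6
        simp
        omega
      rw [h3] at h7
      exact h7
    have h6 := sg_mono hx hs h5
    unfold tl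
    linarith
  by_cases hinf : ∀ N, ∃ n, N ≤ n ∧ x n < tl x (n + 1)
  · obtain ⟨t, ht⟩ := infinite_reps hx hs hK hinf
    obtain ⟨A, hA, B, hB, hAB⟩ := ht.nontrivial
    have h1 := (hT A B hAB ((show sg x A = t from hA).trans (show sg x B = t from hB).symm)).1
    rw [show sg x A = t from hA] at h1
    exact ht h1
  · push Not at hinf
    obtain ⟨N, hN⟩ := hinf
    set M := max N k0 with hM
    have heq : ∀ n, M ≤ n → x n = tl x (n + 1) := fun n hn =>
      le_antisymm (hK n (le_trans (le_max_right _ _) hn)) (hN n (le_trans (le_max_left _ _) hn))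
    have e1 := heq M le_rfl
    have e2 := heq (M + 1) (Nat.le_succ _)
    have e3 := tl_succ hs (M + 1)
    have hlt : x (M + 1) < x M := by
      have := hx (M + 1)
      linarith
    have hsub : R x (x (M + 1)) ⊆ {{M + 1}, {k | M + 2 ≤ k}} := by
      intro C hC
      have hC' : sg x C = x (M + 1) := hC
      have hC1 : C ⊆ {k | M + 1 ≤ k} := by
        intro k hk
        by_contra h6
        simp only [Set.mem_setOf_eq] at h6
        have h7 : x M ≤ x k := ha (by omega)
        have h8 := le_sg hx hs hk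
        linarith
      by_cases h9 : M + 1 ∈ C
      · left
        exact (eq_of_subset hx hs (Set.singleton_subset_iff.2 h9) (by rw [sg_singleton, hC'])).symm
      · right
        apply eq_of_subset hx hs
        · intro k hk
          have h10 : M + 1 ≤ k := hC1 hk
          have h11 : k ≠ M + 1 := fun h => h9 (h ▸ hk)
          show M + 2 ≤ k
          omega
        · rw [hC', e2]; rfl
    have hne : ({M + 1} : Set ℕ) ≠ {k | M + 2 ≤ k} := by
      intro h
      have h1 : M + 1 ∈ ({k | M + 2 ≤ k} : Set ℕ) := h ▸ rfl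
      have h2 : M + 2 ≤ M + 1 := h1
      omega
    have h1 := hT _ _ hne (by rw [sg_singleton, e2]; rfl)
    rw [sg_singleton] at h1
    have h2 := Set.ncard_le_ncard hsub (Set.toFinite _)
    rw [h1.2, Set.ncard_pair hne] at h2
    omega

end

end Pool.Agent.H256.CF
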